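import Pool.Agent.H5Z.ArcCore

/-! For every `k ≥ 1` all large enough `k`-arc-strong semicomplete digraphs have a strong
`k`-decomposition. -/

set_option autoImplicit false

namespace Pool.Agent.Results.MP_44ed1d_co.ALargeSemicomplete

theorem result : ∀ (k : ℕ), 1 ≤ k → ∃ N : ℕ,
    ∀ (V : Type) [Fintype V] (D : Digraph V), N ≤ Fintype.card V →
      (∀ v, ¬ D.Adj v v) →
      (∀ u v, u ≠ v → D.Adj u v ∨ D.Adj v u) →
      (∀ S : Finset (V × V), S.card ≤ k - 1 →
        ∀ u v, Relation.ReflTransGen (fun a b => D.Adj a b ∧ (a, b) ∉ S) u v) →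
      ∃ f : V → V → Fin k, ∀ i : Fin k, ∀ u v,
        Relation.ReflTransGen (fun a b => D.Adj a b ∧ f a b = i) u v := by
  intro k hk
  obtain ⟨N, hN⟩ := Pool.Agent.H5Z.Arc.main k hk
  exact ⟨N, fun V _ D h1 _ h2 h3 => hN V D h1 h2 h3⟩

end Pool.Agent.Results.MP_44ed1d_co.ALargeSemicomplete
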